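import Mathlib
import Pool.Agent.U307.RAD.Stm2
import Pool.Agent.U882.RAD.RT

/-!
Project RAD, package RT2: Riesz and Thorin between `p₀ < 2` and `2`. Adapted from
`Pool/Agent/U882/RAD/RT.lean` (helper882).
-/

set_option autoImplicit false

open MeasureTheory Filter Topology Complex Set
open scoped ComplexConjugate ENNReal SchwartzMap ContDiff

namespace Pool.Agent.U461.RAD

open Pool.Agent.N892.BW.RTT hiding Av_TS edge disc disc2 main Bo
open Pool.Agent.U882.RAD hiding disc2 main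

/-- the limit of the input grids, with the bound at the exponent `2` -/
theorem disc2 {L' : ℝ} (hL' : 0 < L') {A : 𝓢(ℂ, ℂ) → ℂ → ℂ} (hA : Lin A) {p₀ p θ K₀ K₁ : ℝ}
    (hp0 : 1 < p₀) (hlt0 : p₀ < p) (hlt1 : p < 2) (hth : 1 / p = (1 - θ) / p₀ + θ / 2)
    (hK0 : 0 < K₀) (hK1 : 0 < K₁) (B0 : Bo A p₀ K₀) (B1 : Bo A 2 K₁) (S' : Finset (ℤ × ℤ))
    (f : 𝓢(ℂ, ℂ)) :
    ∑ m ∈ S', ‖Av L' m (A f)‖ₑ ^ p ≤
      ENNReal.ofReal (K₀ ^ (1 - θ) * K₁ ^ θ) ^ p * (cc L' * ∫⁻ x, ‖f x‖ₑ ^ p) := by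
  have hp' : 0 < p := by linarith
  have h20 : (0 : ℝ) < 2 := by norm_num
  have hav : ∀ m, Tendsto (fun N => Av L' m (A (ap N f))) atTop (𝓝 (Av L' m (A f))) := by
    intro m
    have h1 : ∀ N, Av L' m (A (ap N f - f)) = Av L' m (A (ap N f)) - Av L' m (A f) := by
      intro N
      have h2 : A (ap N f - f) = fun x => A (ap N f) x - A f x := by
        funext x
        exact hA.sub _ _ x
      rw [h2]
      unfold Av
      rw [integral_sub (Ec_int hL' m (hA.cont _)) (Ec_int hL' m (hA.cont _)), mul_sub]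
    have h3 : ∀ N, ‖Av L' m (A (ap N f - f))‖ₑ ^ (2 : ℝ) ≤
        cc L' * (ENNReal.ofReal K₁ ^ (2 : ℝ) * ∫⁻ x, ‖(ap N f - f) x‖ₑ ^ (2 : ℝ)) := by
      intro N
      refine (Av_pow hL' m (hA.cont _) (by norm_num)).trans (mul_le_mul_right ?_ _)
      exact (setLIntegral_le_lintegral _ _).trans (B1 (ap N f - f))
    have h4 : Tendsto (fun N => cc L' * (ENNReal.ofReal K₁ ^ (2 : ℝ) *
        ∫⁻ x, ‖(ap N f - f) x‖ₑ ^ (2 : ℝ))) atTop (𝓝 0) := by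
      have h5 := ap_Lp f (le_refl (2 : ℝ))
      have h6 := ENNReal.Tendsto.const_mul (a := ENNReal.ofReal K₁ ^ (2 : ℝ)) h5
        (Or.inr (ENNReal.rpow_ne_top_of_nonneg h20.le ENNReal.ofReal_ne_top))
      have h7 := ENNReal.Tendsto.const_mul (a := cc L') h6 (Or.inr (cc_ne hL').2)
      simpa using h7
    have h8 : Tendsto (fun N => ‖Av L' m (A (ap N f - f))‖ₑ ^ (2 : ℝ)) atTop (𝓝 0) :=
      tendsto_of_tendsto_of_tendsto_of_le_of_le tendsto_const_nhds h4 (fun _ => zero_le) h3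
    have h9 : Tendsto (fun N => ‖Av L' m (A (ap N f - f))‖ₑ) atTop (𝓝 0) := by
      have h10 := ((ENNReal.continuous_rpow_const (y := (2 : ℝ)⁻¹)).tendsto 0).comp h8
      rw [ENNReal.zero_rpow_of_pos (inv_pos.2 h20)] at h10
      refine h10.congr fun N => ?_
      exact ENNReal.rpow_rpow_inv h20.ne' _
    have h11 : Tendsto (fun N => ‖Av L' m (A (ap N f - f))‖) atTop (𝓝 0) := by
      have h12 := (ENNReal.tendsto_toReal (a := 0) ENNReal.zero_ne_top).comp h9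
      refine h12.congr fun N => ?_
      simp
    have h13 := tendsto_zero_iff_norm_tendsto_zero.2 h11
    simp only [h1] at h13
    exact tendsto_sub_nhds_zero_iff.1 h13
  have hlim : Tendsto (fun N => ∑ m ∈ S', ‖Av L' m (A (ap N f))‖ₑ ^ p) atTop
      (𝓝 (∑ m ∈ S', ‖Av L' m (A f)‖ₑ ^ p)) := by
    refine tendsto_finsetSum _ fun m _ => ?_
    exact ((ENNReal.continuous_rpow_const (y := p)).tendsto _).comp
      ((continuous_enorm.tendsto _).comp (hav m))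
  exact le_of_tendsto' hlim fun N => disc hL' hA hp0 hlt0 hlt1 hth hK0 hK1 B0 B1 N S' f

theorem main {A : 𝓢(ℂ, ℂ) → ℂ → ℂ} (hA : Lin A) {p₀ p θ K₀ K₁ : ℝ} (hp0 : 1 < p₀)
    (hlt0 : p₀ < p) (hlt1 : p < 2) (hth : 1 / p = (1 - θ) / p₀ + θ / 2) (hK0 : 0 < K₀)
    (hK1 : 0 < K₁) (B0 : Bo A p₀ K₀) (B1 : Bo A 2 K₁) : Bo A p (K₀ ^ (1 - θ) * K₁ ^ θ) := by
  intro f
  have hcont := hA.cont f
  have hle : ∀ N, ∫⁻ x, St N p (A f) x ≤
      ENNReal.ofReal (K₀ ^ (1 - θ) * K₁ ^ θ) ^ p * ∫⁻ x, ‖f x‖ₑ ^ p := by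
    intro N
    rw [St_int]
    obtain ⟨c0, ct⟩ := cc_ne (LL_pos N)
    have h1 := disc2 (LL_pos N) hA hp0 hlt0 hlt1 hth hK0 hK1 B0 B1 (Bx (MM N)) f
    calc _ ≤ (ENNReal.ofReal (K₀ ^ (1 - θ) * K₁ ^ θ) ^ p * (cc (LL N) * ∫⁻ x, ‖f x‖ₑ ^ p)) *
          (cc (LL N))⁻¹ := mul_le_mul_left h1 _
      _ = ENNReal.ofReal (K₀ ^ (1 - θ) * K₁ ^ θ) ^ p * ((cc (LL N) * (cc (LL N))⁻¹) *
          ∫⁻ x, ‖f x‖ₑ ^ p) := by ring
      _ = _ := by rw [ENNReal.mul_inv_cancel c0 ct, one_mul]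
  calc ∫⁻ x, ‖A f x‖ₑ ^ p = ∫⁻ x, liminf (fun N => St N p (A f) x) atTop := by
        refine lintegral_congr fun x => ?_
        exact (St_lim hcont p x).liminf_eq.symm
    _ ≤ liminf (fun N => ∫⁻ x, St N p (A f) x) atTop :=
        lintegral_liminf_le fun N => St_meas N p _
    _ ≤ _ := by
        refine (liminf_le_liminf (Eventually.of_forall hle)).trans ?_
        rw [liminf_const]

theorem t_RT2 : Pool.Agent.U307.RAD.S_RT2 := by
  intro A hadd hsmul hcont p₀ p θ K₀ K₁ hp0 hlt0 hlt1 hth hK0 hK1 H0 H1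
  exact main (A := A) ⟨hadd, hsmul, hcont⟩ hp0 hlt0 hlt1 hth hK0 hK1 H0 H1

end Pool.Agent.U461.RAD
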